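import Pool.Agent.N53.CF.Stm
import Pool.Agent.W174.Stu.Erg
import Pool.Agent.N456.CN.Typ

/-! Campaign CF, part EXT: extensions of the Gauss map by finite groups are ergodic (helper588). -/

set_option autoImplicit false

open Filter Set MeasureTheory Metric
open scoped Topology ENNReal

namespace Pool.Agent.N53.CF

open Pool.Agent.W811.Stu (gauss dig)
open Pool.Agent.R357.CF (gam gam_ac gam_pos)
open Pool.Agent.W174.Stu (iter_mem inv_eq_add gauss_branch gauss_irr gauss_mem mob_sub)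

/-- the branch of the inverse of `gauss^[n]` at `α`, with the digits -/
private theorem ext_branch (α : ℝ) (hα : Irrational α) (h : α ∈ Ioo (0:ℝ) 1) (n : ℕ) :
    ∃ p p' q q' : ℝ, 1 ≤ q ∧ 0 ≤ q' ∧ q' ≤ q ∧ (n : ℝ) + 1 ≤ q + q' ∧
      |p * q' - p' * q| = 1 ∧
      (∀ t ∈ Ioo (0:ℝ) 1, gauss^[n] ((p + t * p') / (q + t * q')) = t ∧
        (p + t * p') / (q + t * q') ∈ Ioo (0:ℝ) 1 ∧
        ∀ i < n, dig ((p + t * p') / (q + t * q')) i = dig α i) ∧
      (p + gauss^[n] α * p') / (q + gauss^[n] α * q') = α := by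
  induction n with
  | zero =>
    refine ⟨0, 1, 1, 0, le_rfl, le_rfl, zero_le_one, by simp, by simp, ?_, ?_⟩
    · intro t ht
      refine ⟨by simp, by simpa using ht, fun i hi => absurd hi (Nat.not_lt_zero i)⟩
    · simp
  | succ n ih =>
    obtain ⟨p, p', q, q', h1, h2, h3, h4, h5, h6, h7⟩ := ih
    obtain ⟨i1, i2⟩ := iter_mem hα h n
    obtain ⟨j1, j2⟩ := inv_eq_add i2
    set a := ⌊(gauss^[n] α)⁻¹⌋₊ with ha
    have ja : (1:ℝ) ≤ a := by exact_mod_cast j1
    refine ⟨p * a + p', p, q * a + q', q, ?_, by linarith, ?_, ?_, ?_, ?_, ?_⟩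
    · nlinarith
    · nlinarith
    · push_cast
      nlinarith
    · rw [← h5, ← abs_neg]
      congr 1
      ring
    · intro t ht
      have hat : 0 < (a:ℝ) + t := by linarith [ht.1]
      have ht' : 1 / ((a:ℝ) + t) ∈ Ioo (0:ℝ) 1 := by
        refine ⟨by positivity, ?_⟩
        rw [div_lt_one hat]
        linarith [ht.1]
      obtain ⟨e, em, ed⟩ := h6 _ ht'
      have hden : 0 < q + 1 / ((a:ℝ) + t) * q' := by positivity
      have hden2 : 0 < q * a + q' + t * q := by nlinarith [ht.1]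
      have e2 : (p + 1 / ((a:ℝ) + t) * p') / (q + 1 / ((a:ℝ) + t) * q') =
          (p * a + p' + t * p) / (q * a + q' + t * q) := by
        rw [div_eq_div_iff hden.ne' hden2.ne']
        field_simp
        ring
      rw [← e2]
      refine ⟨?_, em, ?_⟩
      · rw [Function.iterate_succ', Function.comp_apply, e, gauss_branch j1 ht.1.le ht.2]
      · intro i hi
        rcases Nat.lt_succ_iff_lt_or_eq.1 hi with hi' | rfl
        · exact ed i hi'
        · show ⌊(gauss^[i] ((p + 1 / ((a:ℝ) + t) * p') / (q + 1 / ((a:ℝ) + t) * q')))⁻¹⌋₊ = a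
          rw [e, one_div, inv_inv, add_comm, Nat.floor_add_natCast ht.1.le,
            Nat.floor_eq_zero.2 ht.2, zero_add]
    · obtain ⟨k1, k2⟩ := iter_mem hα h (n + 1)
      rw [Function.iterate_succ', Function.comp_apply] at k1 k2 ⊢
      set t := gauss (gauss^[n] α) with ht
      have hat : 0 < (a:ℝ) + t := by linarith [k2.1]
      rw [j2] at h7
      have hden : 0 < q + 1 / ((a:ℝ) + t) * q' := by positivity
      have hden2 : 0 < q * a + q' + t * q := by nlinarith [k2.1]
      have e2 : (p + 1 / ((a:ℝ) + t) * p') / (q + 1 / ((a:ℝ) + t) * q') =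
          (p * a + p' + t * p) / (q * a + q' + t * q) := by
        rw [div_eq_div_iff hden.ne' hden2.ne']
        field_simp
        ring
      rw [← e2]
      exact h7

/-- cylinders around irrational points, with the digits -/
private theorem ext_cyl (D : Set ℝ) (α : ℝ) (hα : Irrational α) (h : α ∈ Ioo (0:ℝ) 1) (n : ℕ) :
    ∃ w δ : ℝ, 0 < δ ∧ δ ≤ 1 / ((n : ℝ) + 1) ∧ α ∈ closedBall w δ ∧
      ∃ S : Set ℝ, S ⊆ closedBall w δ ∧ (∀ x ∈ S, gauss^[n] x ∈ D ∧ x ∈ Ioo (0:ℝ) 1 ∧
        ∀ i < n, dig x i = dig α i) ∧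
        volume (D ∩ Ioo 0 1) * volume (closedBall w δ) ≤ 4 * volume S := by
  obtain ⟨p, p', q, q', h1, h2, h3, h4, h5, h6', h7⟩ := ext_branch α hα h n
  have h6 : ∀ t ∈ Ioo (0:ℝ) 1, gauss^[n] ((p + t * p') / (q + t * q')) = t := fun t ht => (h6' t ht).1
  have hq : 0 < q := by linarith
  have hqq : 0 < q + q' := by linarith
  let ψ : ℝ → ℝ := fun t => (p + t * p') / (q + t * q')
  have hden : ∀ t : ℝ, 0 ≤ t → 0 < q + t * q' := fun t ht => by positivity
  have hψ : ∀ s t : ℝ, 0 ≤ s → 0 ≤ t → |ψ s - ψ t| = |s - t| / ((q + s * q') * (q + t * q')) :=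
    fun s t hs ht => Pool.Agent.W174.Stu.mob_sub (hden s hs) (hden t ht) h5
  have h01 : |ψ 1 - ψ 0| = 1 / (q * (q + q')) := by
    rw [hψ 1 0 zero_le_one le_rfl]
    simp [mul_comm]
  have hin : ∀ t ∈ Icc (0:ℝ) 1, ψ t ∈ closedBall ((ψ 0 + ψ 1) / 2) (|ψ 1 - ψ 0| / 2) := by
    intro t ht
    have e1 : |ψ t - ψ 0| ≤ |ψ 1 - ψ 0| := by
      rw [h01, hψ t 0 ht.1 le_rfl, sub_zero, abs_of_nonneg ht.1, zero_mul, add_zero,
        div_le_div_iff₀ (mul_pos (hden t ht.1) hq) (by positivity)]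
      have : t * (q + q') ≤ q + t * q' := by nlinarith [ht.2]
      nlinarith
    have e2 : |ψ t - ψ 1| ≤ |ψ 1 - ψ 0| := by
      rw [h01, hψ t 1 ht.1 zero_le_one, one_mul, abs_sub_comm, abs_of_nonneg (by linarith [ht.2]),
        div_le_div_iff₀ (mul_pos (hden t ht.1) hqq) (by positivity)]
      have : (1 - t) * q ≤ q + t * q' := by nlinarith [ht.1, mul_nonneg ht.1 h2]
      nlinarith
    rw [mem_closedBall, Real.dist_eq, abs_le]
    rcases le_total (ψ 0) (ψ 1) with h8 | h8
    · rw [abs_of_nonneg (sub_nonneg.2 h8)] at e1 e2 ⊢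
      rw [abs_le] at e1 e2
      constructor <;> linarith [e1.1, e1.2, e2.1, e2.2]
    · rw [abs_of_nonpos (sub_nonpos.2 h8)] at e1 e2 ⊢
      rw [abs_le] at e1 e2
      constructor <;> linarith [e1.1, e1.2, e2.1, e2.2]
  refine ⟨(ψ 0 + ψ 1) / 2, |ψ 1 - ψ 0| / 2, ?_, ?_, ?_, ψ '' (D ∩ Ioo 0 1), ?_, ?_, ?_⟩
  · rw [h01]; positivity
  · rw [h01]
    have : 1 / (q * (q + q')) ≤ 1 / ((n : ℝ) + 1) := by
      apply one_div_le_one_div_of_le (by positivity)
      nlinarith
    have h9 : 0 < 1 / (q * (q + q')) := by positivity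
    linarith
  · have := hin (gauss^[n] α) (Ioo_subset_Icc_self (iter_mem hα h n).2)
    rwa [show ψ (gauss^[n] α) = α from h7] at this
  · rintro _ ⟨t, ht, rfl⟩
    exact hin t (Ioo_subset_Icc_self ht.2)
  · rintro _ ⟨t, ht, rfl⟩
    refine ⟨?_, (h6' t ht.2).2⟩
    rw [show gauss^[n] (ψ t) = t from h6 t ht.2]
    exact ht.1
  · -- measure estimate
    have himg : gauss^[n] '' (ψ '' (D ∩ Ioo 0 1)) = D ∩ Ioo 0 1 := by
      rw [image_image]
      have : EqOn (fun t => gauss^[n] (ψ t)) id (D ∩ Ioo 0 1) := fun t ht => h6 t ht.2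
      rw [this.image_eq, image_id]
    have hlip : LipschitzOnWith (Real.toNNReal (4 * q ^ 2)) (gauss^[n]) (ψ '' (D ∩ Ioo 0 1)) := by
      apply LipschitzOnWith.of_dist_le_mul
      rintro _ ⟨s, hs, rfl⟩ _ ⟨t, ht, rfl⟩
      rw [Real.coe_toNNReal _ (by positivity), Real.dist_eq, Real.dist_eq,
        show gauss^[n] (ψ s) = s from h6 s hs.2, show gauss^[n] (ψ t) = t from h6 t ht.2,
        hψ s t hs.2.1.le ht.2.1.le]
      have d1 := hden s hs.2.1.le
      have d2 := hden t ht.2.1.le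
      rw [mul_div_assoc', le_div_iff₀ (mul_pos d1 d2), mul_comm]
      apply mul_le_mul_of_nonneg_right _ (abs_nonneg _)
      have b1 : q + s * q' ≤ 2 * q := by nlinarith [hs.2.2, hs.2.1]
      have b2 : q + t * q' ≤ 2 * q := by nlinarith [ht.2.2, ht.2.1]
      nlinarith
    have hH := hlip.hausdorffMeasure_image_le (d := 1) zero_le_one
    rw [himg, hausdorffMeasure_real, ENNReal.rpow_one] at hH
    have hv : volume (closedBall ((ψ 0 + ψ 1) / 2) (|ψ 1 - ψ 0| / 2)) =
        ENNReal.ofReal (1 / (q * (q + q'))) := by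
      rw [Real.volume_closedBall, h01]
      congr 1
      ring
    rw [hv]
    calc volume (D ∩ Ioo 0 1) * ENNReal.ofReal (1 / (q * (q + q')))
        ≤ ((Real.toNNReal (4 * q ^ 2) : NNReal) : ℝ≥0∞) * volume (ψ '' (D ∩ Ioo 0 1)) *
          ENNReal.ofReal (1 / (q * (q + q'))) := by gcongr
      _ = (ENNReal.ofReal (4 * q ^ 2) * ENNReal.ofReal (1 / (q * (q + q')))) *
          volume (ψ '' (D ∩ Ioo 0 1)) := by
        change ENNReal.ofReal (4 * q ^ 2) * _ * _ = _
        ring
      _ ≤ 4 * volume (ψ '' (D ∩ Ioo 0 1)) := by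
        gcongr
        rw [← ENNReal.ofReal_mul (by positivity)]
        have : 4 * q ^ 2 * (1 / (q * (q + q'))) ≤ 4 := by
          rw [mul_one_div, div_le_iff₀ (by positivity)]
          nlinarith [mul_nonneg hq.le h2]
        calc ENNReal.ofReal _ ≤ ENNReal.ofReal 4 := ENNReal.ofReal_le_ofReal this
          _ = 4 := by norm_num


/-- positive measure is transported to the other sheets -/
private theorem ext_pos {H : Type} [Group H] {φ : ℕ → H} {E : H → Set ℝ}
    (hE : ∀ h, MeasurableSet (E h))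
    (hinv : ∀ (x : ℝ) (h : H), gauss x ∈ E (h * φ (dig x 0)) ↔ x ∈ E h) {g : H}
    (hg : volume (E g ∩ Ioo 0 1) ≠ 0) {a : ℕ} (ha : 1 ≤ a) :
    volume (E (g * (φ a)⁻¹) ∩ Ioo 0 1) ≠ 0 := by
  have ha' : (1 : ℝ) ≤ a := by exact_mod_cast ha
  -- a point with the first digit `a`
  set β : ℝ := √2 - 1 with hβ
  have hβi : Irrational β := by
    have := irrational_sqrt_two.sub_natCast 1
    simpa using this
  have hβ0 : 0 < β := by
    have : (1 : ℝ) < √2 := by
      rw [Real.lt_sqrt (by norm_num)]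
      norm_num
    linarith
  have hβ1 : β < 1 := by
    have : √2 < 2 := by
      rw [Real.sqrt_lt' (by norm_num)]
      norm_num
    linarith
  set α : ℝ := ((a : ℝ) + β)⁻¹ with hα
  have hαi : Irrational α := by
    have h1 : Irrational ((a : ℝ) + β) := hβi.natCast_add a
    exact h1.inv
  have hαm : α ∈ Ioo (0 : ℝ) 1 := by
    refine ⟨by positivity, ?_⟩
    exact inv_lt_one_of_one_lt₀ (by linarith)
  have hdig : dig α 0 = a := by
    show ⌊α⁻¹⌋₊ = a
    rw [hα, inv_inv, add_comm, Nat.floor_add_natCast hβ0.le, Nat.floor_eq_zero.2 hβ1, zero_add]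
  obtain ⟨w, δ, h1, -, -, S, -, h2, h3⟩ := ext_cyl (E g) α hαi hαm 1
  have hB0 : volume (closedBall w δ) ≠ 0 := by
    rw [Real.volume_closedBall]
    simp [h1]
  have hS0 : volume S ≠ 0 := by
    intro h0
    rw [h0, mul_zero] at h3
    exact (mul_ne_zero hg hB0) (le_antisymm h3 bot_le)
  intro h0
  apply hS0
  refine measure_mono_null ?_ h0
  intro x hx
  obtain ⟨k1, k2, k3⟩ := h2 x hx
  refine ⟨?_, k2⟩
  rw [← hinv, k3 0 Nat.zero_lt_one, hdig, inv_mul_cancel_right]
  exact k1

/-- all the sheets have positive measure -/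
private theorem ext_all {H : Type} [Group H] [Finite H] {φ : ℕ → H}
    (hgen : Subgroup.closure (φ '' {a : ℕ | 1 ≤ a}) = ⊤) {E : H → Set ℝ}
    (hE : ∀ h, MeasurableSet (E h))
    (hinv : ∀ (x : ℝ) (h : H), gauss x ∈ E (h * φ (dig x 0)) ↔ x ∈ E h) {g : H}
    (hg : volume (E g ∩ Ioo 0 1) ≠ 0) (h : H) : volume (E h ∩ Ioo 0 1) ≠ 0 := by
  let K : Submonoid H :=
    { carrier := {k | ∀ g, volume (E g ∩ Ioo 0 1) ≠ 0 → volume (E (g * k⁻¹) ∩ Ioo 0 1) ≠ 0}
      one_mem' := by
        intro g hg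
        rwa [inv_one, mul_one]
      mul_mem' := by
        intro k l hk hl g hg
        rw [mul_inv_rev, ← mul_assoc]
        exact hk _ (hl g hg) }
  have hK : ∀ k : H, k ∈ K := by
    intro k
    have hk : k ∈ Subgroup.closure (φ '' {a : ℕ | 1 ≤ a}) := by rw [hgen]; trivial
    induction hk using Subgroup.closure_induction with
    | mem x hx =>
      obtain ⟨a, ha, rfl⟩ := hx
      exact fun g hg => ext_pos hE hinv hg ha
    | one => exact K.one_mem
    | mul x y _ _ hx hy => exact K.mul_mem hx hy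
    | inv x _ hx =>
      have h1 : x⁻¹ = x ^ (orderOf x - 1) := by
        rw [inv_eq_iff_mul_eq_one, ← pow_succ', Nat.sub_add_cancel (orderOf_pos x),
          pow_orderOf_eq_one]
      rw [h1]
      exact K.pow_mem hx _
  have h1 := hK (h⁻¹ * g) g hg
  have e : g * (h⁻¹ * g)⁻¹ = h := by group
  rwa [e] at h1

private theorem ext_key {H : Type} [Group H] {φ : ℕ → H} {E : H → Set ℝ}
    (hinv : ∀ (x : ℝ) (h : H), gauss x ∈ E (h * φ (dig x 0)) ↔ x ∈ E h) (g : H) {x α : ℝ} :
    ∀ n : ℕ, (∀ i < n, dig x i = dig α i) →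
      (x ∈ E g ↔ gauss^[n] x ∈ E (g * pr φ (dig α) n)) := by
  intro n
  induction n with
  | zero =>
    intro _
    show x ∈ E g ↔ x ∈ E (g * 1)
    rw [mul_one]
  | succ n ih =>
    intro hd
    rw [ih fun i hi => hd i (hi.trans (Nat.lt_succ_self n)), ← hinv,
      Function.iterate_succ', Function.comp_apply]
    have e1 : dig (gauss^[n] x) 0 = dig α n := by
      rw [← hd n (Nat.lt_succ_self n)]
      rfl
    have e2 : pr φ (dig α) (n + 1) = pr φ (dig α) n * φ (dig α n) := rfl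
    rw [e1, e2, mul_assoc]

theorem t_EXT : S_EXT := by
  intro H _ _ φ hgen E hE hinv
  by_cases hall : ∀ h, gam (E h) = 0
  · exact Or.inl hall
  right
  push Not at hall
  obtain ⟨g₀, hg₀⟩ := hall
  have hpos := ext_all hgen hE hinv (gam_pos (hE g₀) hg₀)
  -- the minimum
  obtain ⟨m, hm⟩ := Finite.exists_min fun h => volume (E h ∩ Ioo (0 : ℝ) 1)
  set c : ℝ≥0∞ := volume (E m ∩ Ioo (0 : ℝ) 1) with hc
  have hc0 : c ≠ 0 := hpos m
  intro g
  let V : Set ℝ := (E g)ᶜ
  have hVm : MeasurableSet V := (hE g).compl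
  have hirr : ∀ᵐ α : ℝ, Irrational α := by
    have : (range ((↑) : ℚ → ℝ)).Countable := countable_range _
    exact (this.ae_notMem volume)
  have hdens := IsUnifLocDoublingMeasure.ae_tendsto_measure_inter_div (μ := (volume : Measure ℝ))
    (V ∩ Ioo 0 1) 1
  have hV0 : volume (V ∩ Ioo 0 1) = 0 := by
    rw [← Measure.restrict_eq_zero]
    have hmem : ∀ᵐ α ∂(volume.restrict (V ∩ Ioo 0 1)), α ∈ V ∩ Ioo (0:ℝ) 1 :=
      ae_restrict_mem (hVm.inter measurableSet_Ioo)
    have hall : ∀ᵐ α ∂(volume.restrict (V ∩ Ioo (0:ℝ) 1)), False := by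
      filter_upwards [hdens, hmem, ae_restrict_of_ae hirr] with α h1 h2 h3
      choose w δ c1 c2 c3 S c4 c5 c6' using fun n => ext_cyl (E (g * pr φ (dig α) n)) α h3 h2.2 n
      have c6 : ∀ n, c * volume (closedBall (w n) (δ n)) ≤ 4 * volume (S n) := fun n =>
        (mul_le_mul_left (hm (g * pr φ (dig α) n)) _).trans (c6' n)
      have hδ : Tendsto δ atTop (𝓝[>] 0) := by
        rw [tendsto_nhdsWithin_iff]
        refine ⟨squeeze_zero (fun n => (c1 n).le) c2 tendsto_one_div_add_atTop_nhds_zero_nat,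
          Eventually.of_forall c1⟩
      have hT := h1 w δ hδ (Eventually.of_forall fun n => by rw [one_mul]; exact c3 n)
      have hb : ∀ n, volume (V ∩ Ioo 0 1 ∩ closedBall (w n) (δ n)) / volume (closedBall (w n) (δ n))
          ≤ 1 - c / 4 := by
        intro n
        have hB0 : volume (closedBall (w n) (δ n)) ≠ 0 := by
          rw [Real.volume_closedBall]
          simp [c1 n]
        have hBt : volume (closedBall (w n) (δ n)) ≠ ∞ := by
          rw [Real.volume_closedBall]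
          exact ENNReal.ofReal_ne_top
        have hsub : S n ⊆ closedBall (w n) (δ n) \ V := fun x hx =>
          ⟨c4 n hx, fun hV => hV ((ext_key hinv g n (c5 n x hx).2.2).2 (c5 n x hx).1)⟩
        have e1 : volume (V ∩ Ioo 0 1 ∩ closedBall (w n) (δ n)) + volume (S n) ≤
            volume (closedBall (w n) (δ n)) := by
          rw [← measure_inter_add_sdiff (closedBall (w n) (δ n)) hVm]
          refine add_le_add (measure_mono ?_) (measure_mono hsub)
          exact fun x hx => ⟨hx.2, hx.1.1⟩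
        have e2 : c / 4 * volume (closedBall (w n) (δ n)) ≤ volume (S n) := by
          have := c6 n
          rw [← ENNReal.mul_div_right_comm]
          exact ENNReal.div_le_of_le_mul' this
        rw [ENNReal.div_le_iff hB0 hBt]
        rw [ENNReal.sub_mul (fun _ _ => hBt), one_mul]
        exact ENNReal.le_sub_of_add_le_right (ne_top_of_le_ne_top hBt (by
          calc c / 4 * volume (closedBall (w n) (δ n))
              ≤ volume (S n) := e2
            _ ≤ volume (closedBall (w n) (δ n)) := measure_mono (c4 n)))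
          ((add_le_add le_rfl e2).trans e1)
      have hle := le_of_tendsto' hT hb
      have : 1 - c / 4 < 1 := by
        apply ENNReal.sub_lt_self ENNReal.one_ne_top one_ne_zero
        simp [hc0]
      exact absurd hle (not_le.2 this)
    exact ae_eq_bot.1 (Filter.eventually_false_iff_eq_bot.1 hall)
  apply gam_ac
  rw [Measure.restrict_apply hVm]
  exact hV0

end Pool.Agent.N53.CF
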