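import Pool.Agent.N53.CF.Stm

/-!
# Campaign CF: the main theorem from the parts
-/

set_option autoImplicit false

namespace Pool.Agent.N53.CF

open MeasureTheory Filter Topology Set
open Pool.Agent.N24.RW (ProNull)
open Pool.Agent.W811.Stu (gauss dig)

theorem t_FIN (hU : S_UPP) (hG : S_GRP) : S_CF := by
  intro B hB α hα
  rw [Metric.tendsto_atTop']
  intro ε hε
  obtain ⟨q, hq, hq2, hcard⟩ := hB 2 (by norm_num) (ε / 4) (by positivity)
  have hodd : Odd q := Nat.coprime_two_right.1 hq2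
  have hqR : (0 : ℝ) < (q : ℝ) ^ 2 := by positivity
  obtain ⟨H, _, _, φ, S, hgen, hS, hiff⟩ :=
    hG q hq hodd ((fun (c : Fin 2 → ℤ) (i : Fin 2) => (c i : ZMod q)) '' B)
  have h1 : (S.ncard : ℝ) / (Nat.card H : ℝ) ≤ ε / 2 := by
    refine hS.trans ?_
    rw [Fintype.card_fin] at hcard
    rw [div_le_iff₀ hqR]
    linarith
  obtain ⟨N₀, hN₀⟩ := eventually_atTop.1 (hU α hα H φ hgen S (ε / 4) (by positivity))
  refine ⟨N₀, fun N hN => ?_⟩
  have h2 := hN₀ N hN.le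
  have hNpos : (0 : ℝ) < N := by
    exact_mod_cast lt_of_le_of_lt (Nat.zero_le _) hN
  have h3 : (({n : ℕ | n < N ∧ cvg (dig α) n ∈ B}.ncard : ℕ) : ℝ) ≤
      (({n : ℕ | n < N ∧ pr φ (dig α) n ∈ S}.ncard : ℕ) : ℝ) := by
    have h4 : {n : ℕ | n < N ∧ cvg (dig α) n ∈ B}.ncard ≤
        {n : ℕ | n < N ∧ pr φ (dig α) n ∈ S}.ncard :=
      Set.ncard_le_ncard (fun n hn => ⟨hn.1, (hiff (dig α) n).1 ⟨_, hn.2, rfl⟩⟩)
        ((Set.finite_Iio N).subset fun n hn => hn.1)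
    exact_mod_cast h4
  rw [Real.dist_eq, sub_zero, abs_of_nonneg (by positivity), div_lt_iff₀ hNpos]
  have h5 : ((S.ncard : ℝ) / (Nat.card H : ℝ) + ε / 4) * (N : ℝ) < ε * N := by
    apply mul_lt_mul_of_pos_right _ hNpos
    linarith
  exact (h3.trans h2).trans_lt h5

end Pool.Agent.N53.CF
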