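import Pool.Agent.N53.CF.Stm
import Pool.Agent.N24.RW.Orb

/-!
# CF/GRP (helper645): the convergents modulo `q`
-/

set_option autoImplicit false

namespace Pool.Agent.N53.CF

open Pool.Agent.N24.RW

/-- the matrix of a partial quotient -/
def grpA (q : ℕ) (a : ZMod q) : (Matrix (Fin 2) (Fin 2) (ZMod q))ˣ where
  val := !![0, 1; 1, a]
  inv := !![-a, 1; 1, 0]
  val_inv := by rw [Matrix.mul_fin_two, Matrix.one_fin_two]; simp
  inv_val := by rw [Matrix.mul_fin_two, Matrix.one_fin_two]; simp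

/-- the group generated by them -/
def grpH (q : ℕ) : Subgroup (Matrix (Fin 2) (Fin 2) (ZMod q))ˣ :=
  Subgroup.closure ((fun a : ℕ => grpA q a) '' {a : ℕ | 1 ≤ a})

theorem grp_mem {q : ℕ} (hq : 0 < q) (a : ZMod q) : grpA q a ∈ grpH q := by
  have : NeZero q := ⟨hq.ne'⟩
  apply Subgroup.subset_closure
  refine ⟨a.val + q, ?_, ?_⟩
  · change 1 ≤ a.val + q
    omega
  · simp

theorem grp_low {q : ℕ} (hq : 0 < q) (c : ZMod q) : ∃ h ∈ grpH q, h.1 = !![1, 0; c, 1] := by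
  refine ⟨grpA q c * (grpA q 0)⁻¹, mul_mem (grp_mem hq _) (inv_mem (grp_mem hq _)), ?_⟩
  change !![0, 1; 1, c] * !![-0, 1; 1, 0] = _
  rw [Matrix.mul_fin_two]
  simp

theorem grp_upp {q : ℕ} (hq : 0 < q) (c : ZMod q) : ∃ h ∈ grpH q, h.1 = !![1, c; 0, 1] := by
  refine ⟨(grpA q 0)⁻¹ * grpA q c, mul_mem (inv_mem (grp_mem hq _)) (grp_mem hq _), ?_⟩
  change !![-0, 1; 1, 0] * !![0, 1; 1, c] = _
  rw [Matrix.mul_fin_two]
  simp

/-- two vectors are in one orbit -/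
def grpR {q : ℕ} (u w : Fin 2 → ZMod q) : Prop := ∃ h ∈ grpH q, h.1.mulVec u = w

theorem grpR.trans {q : ℕ} {u v w : Fin 2 → ZMod q} (h1 : grpR u v) (h2 : grpR v w) :
    grpR u w := by
  obtain ⟨g, hg, rfl⟩ := h1
  obtain ⟨h, hh, rfl⟩ := h2
  refine ⟨h * g, mul_mem hh hg, ?_⟩
  rw [Matrix.mulVec_mulVec]
  rfl

theorem grpR.symm {q : ℕ} {u v : Fin 2 → ZMod q} (h1 : grpR u v) : grpR v u := by
  obtain ⟨g, hg, rfl⟩ := h1
  refine ⟨g⁻¹, inv_mem hg, ?_⟩
  rw [Matrix.mulVec_mulVec, Units.inv_mul, Matrix.one_mulVec]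

theorem grpR.mv1 {q : ℕ} (hq : 0 < q) (x y c : ZMod q) : grpR ![x, y] ![x + c * y, y] := by
  obtain ⟨h, hh, he⟩ := grp_upp hq c
  refine ⟨h, hh, ?_⟩
  rw [he]
  funext i
  fin_cases i <;> simp [Matrix.mulVec, dotProduct, Fin.sum_univ_two]

theorem grpR.mv2 {q : ℕ} (hq : 0 < q) (x y c : ZMod q) : grpR ![x, y] ![x, y + c * x] := by
  obtain ⟨h, hh, he⟩ := grp_low hq c
  refine ⟨h, hh, ?_⟩
  rw [he]
  funext i
  fin_cases i <;> simp [Matrix.mulVec, dotProduct, Fin.sum_univ_two, add_comm]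

/-- the primitive vectors are in the orbit -/
theorem grp_orb {q : ℕ} (hq : 0 < q) (v : Fin 2 → ZMod q) (hv : Orb.Um v) : grpR ![0, 1] v := by
  obtain ⟨x, y, rfl⟩ : ∃ x y, v = ![x, y] := ⟨v 0, v 1, by
    funext i
    fin_cases i <;> rfl⟩
  obtain ⟨t, ht⟩ := Orb.stable hq x y
  have hu : IsUnit (x + t * y) := by
    refine Orb.unit_of hq _ fun p hp hd h0 => ?_
    obtain ⟨h1, h2⟩ := ht p hp hd h0
    obtain ⟨i, hi⟩ := hv p hp hd
    fin_cases i
    · exact hi h1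
    · exact hi h2
  obtain ⟨u, hu⟩ := hu
  have h1 := grpR.mv1 hq x y t
  have h2 := grpR.mv2 hq (x + t * y) y ((1 - y) * ((u⁻¹ : (ZMod q)ˣ) : ZMod q))
  have h3 := grpR.mv1 hq (x + t * y) 1 (-(x + t * y))
  have e2 : y + (1 - y) * ((u⁻¹ : (ZMod q)ˣ) : ZMod q) * (x + t * y) = 1 := by
    rw [← hu, mul_assoc, Units.inv_mul]
    ring
  have e3 : x + t * y + -(x + t * y) * 1 = 0 := by ring
  rw [e2] at h2
  rw [e3] at h3
  exact ((h1.trans h2).trans h3).symm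

/-- the convergents are products of matrices -/
theorem grp_pr {q : ℕ} (hq : 0 < q) (a : ℕ → ℕ) (n : ℕ) :
    (pr (fun a : ℕ => (⟨grpA q a, grp_mem hq _⟩ : grpH q)) a n).1.1 =
      !![((cv a n).1.1 : ZMod q), ((cv a n).2.1 : ZMod q);
        ((cv a n).1.2 : ZMod q), ((cv a n).2.2 : ZMod q)] := by
  induction n with
  | zero =>
    change (1 : Matrix (Fin 2) (Fin 2) (ZMod q)) = _
    rw [Matrix.one_fin_two]
    simp [cv]
  | succ n ih =>
    change (pr (fun a : ℕ => (⟨grpA q a, grp_mem hq _⟩ : grpH q)) a n).1.1 *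
      !![0, 1; 1, ((a n : ℕ) : ZMod q)] = _
    rw [ih, Matrix.mul_fin_two]
    simp [cv]
    ring_nf
    simp

/-- **GRP.** -/
theorem t_GRP : S_GRP := by
  intro q hq ho R
  have : NeZero q := ⟨hq.ne'⟩
  refine ⟨grpH q, inferInstance, inferInstance, fun a => ⟨grpA q a, grp_mem hq _⟩,
    {h | h.1.1.mulVec ![0, 1] ∈ R}, ?_, ?_, ?_⟩
  · have h1 := Subgroup.closure_closure_coe_preimage
      (k := (fun a : ℕ => grpA q a) '' {a : ℕ | 1 ≤ a})
    refine Eq.trans (congrArg Subgroup.closure ?_) h1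
    ext x
    constructor
    · rintro ⟨a, ha, rfl⟩
      exact ⟨a, ha, rfl⟩
    · rintro ⟨a, ha, h2⟩
      exact ⟨a, ha, Subtype.ext h2⟩
  · -- counting
    have hch : ∀ w : Fin 2 → ZMod q, ∃ h : grpH q, grpR ![0, 1] w → h.1.1.mulVec ![0, 1] = w := by
      intro w
      by_cases hw : grpR ![0, 1] w
      · obtain ⟨h, hh, he⟩ := hw
        exact ⟨⟨h, hh⟩, fun _ => he⟩
      · exact ⟨1, fun h => absurd h hw⟩
    choose c hc using hch
    have hinv : ∀ w, grpR ![0, 1] w → ((c w)⁻¹).1.1.mulVec w = ![0, 1] := by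
      intro w hw
      have h1 := hc w hw
      have h2 : ((c w)⁻¹).1.1.mulVec ((c w).1.1.mulVec ![0, 1]) = ![0, 1] := by
        rw [Matrix.mulVec_mulVec]
        have h3 : ((c w)⁻¹).1.1 * (c w).1.1 = 1 := Units.inv_mul _
        rw [h3, Matrix.one_mulVec]
      rw [h1] at h2
      exact h2
    have hS : ∀ s : grpH q, grpR ![0, 1] (s.1.1.mulVec ![0, 1]) := fun s => ⟨s.1, s.2, rfl⟩
    obtain ⟨F, hF⟩ : ∃ F : {h : grpH q | h.1.1.mulVec ![0, 1] ∈ R} × {u : Fin 2 → ZMod q | Orb.Um u} →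
        R × grpH q, F = fun z => (⟨z.1.1.1.1.mulVec ![0, 1], z.1.2⟩,
          c z.2.1 * (c (z.1.1.1.1.mulVec ![0, 1]))⁻¹ * z.1.1) := ⟨_, rfl⟩
    have hinj : Function.Injective F := by
      have hv : ∀ z, (F z).2.1.1.mulVec ![0, 1] = z.2.1 := by
        intro z
        rw [hF]
        change ((c z.2.1).1.1 * ((c (z.1.1.1.1.mulVec ![0, 1]))⁻¹).1.1 * z.1.1.1.1).mulVec ![0, 1] = _
        rw [← Matrix.mulVec_mulVec, ← Matrix.mulVec_mulVec, hinv _ (hS _),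
          hc _ (grp_orb hq _ z.2.2)]
      have hs : ∀ z, z.1.1 = c (F z).1.1 * (c ((F z).2.1.1.mulVec ![0, 1]))⁻¹ * (F z).2 := by
        intro z
        rw [hv, hF]
        simp only
        group
      intro z z' h
      have h1 : z.1.1 = z'.1.1 := by rw [hs z, hs z', h]
      have h2 : z.2.1 = z'.2.1 := by rw [← hv z, ← hv z', h]
      exact Prod.ext (Subtype.ext h1) (Subtype.ext h2)
    have h1 := Nat.card_le_card_of_injective F hinj
    rw [Nat.card_prod, Nat.card_prod, Nat.card_coe_set_eq, Nat.card_coe_set_eq,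
      Nat.card_coe_set_eq] at h1
    have h2 := Orb.card_um (ι := Fin 2) hq ho (by simp)
    rw [Fintype.card_fin] at h2
    have h3 : (({h : grpH q | h.1.1.mulVec ![0, 1] ∈ R}.ncard : ℕ) : ℝ) *
        (({u : Fin 2 → ZMod q | Orb.Um u}.ncard : ℕ) : ℝ) ≤ (R.ncard : ℝ) * (Nat.card (grpH q) : ℝ) := by
      exact_mod_cast h1
    have hq0 : (0 : ℝ) < q := by exact_mod_cast hq
    have h4 : (0 : ℝ) < (Nat.card (grpH q) : ℝ) := by
      exact_mod_cast Nat.card_pos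
    rw [div_le_div_iff₀ h4 (by positivity)]
    have h5 : (0 : ℝ) ≤ (({h : grpH q | h.1.1.mulVec ![0, 1] ∈ R}.ncard : ℕ) : ℝ) := by positivity
    nlinarith
  · intro a n
    change _ ↔ (pr (fun a : ℕ => (⟨grpA q a, grp_mem hq _⟩ : grpH q)) a n).1.1.mulVec ![0, 1] ∈ R
    rw [grp_pr hq]
    have h1 : (fun i => (cvg a n i : ZMod q)) = (!![((cv a n).1.1 : ZMod q), ((cv a n).2.1 : ZMod q);
        ((cv a n).1.2 : ZMod q), ((cv a n).2.2 : ZMod q)]).mulVec ![0, 1] := by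
      funext i
      fin_cases i <;> simp [cvg, Matrix.mulVec, dotProduct, Fin.sum_univ_two]
    rw [h1]

end Pool.Agent.N53.CF
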