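import Pool.Agent.N53.CF.Stm
import Pool.Agent.H165R3.Birk

/-!
# Campaign CF, task SKW: frequencies in the extension, almost everywhere
-/

set_option autoImplicit false

namespace Pool.Agent.N53.CF

open MeasureTheory Filter Topology Set
open Pool.Agent.W811.Stu (gauss dig)
open Pool.Agent.R357.CF (gam)

namespace SkwAux

section
variable {H : Type} [Group H] [Finite H] [MeasurableSpace H] [DiscreteMeasurableSpace H]

/-- the uniform probability measure on a finite group -/
noncomputable def nu (H : Type) [MeasurableSpace H] : Measure H :=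
  ((Nat.card H : ENNReal))⁻¹ • Measure.count

theorem nu_apply (A : Set H) : nu H A = (Nat.card H : ENNReal)⁻¹ * (A.encard : ENNReal) := by
  unfold nu
  rw [Measure.smul_apply, Measure.count_apply (MeasurableSet.of_discrete), smul_eq_mul]

theorem nu_univ : nu H (univ : Set H) = 1 := by
  rw [nu_apply, Set.encard_univ, ENat.card_eq_coe_natCard]
  have h : (Nat.card H : ENNReal) ≠ 0 := by
    exact_mod_cast Nat.card_pos.ne'
  exact ENNReal.inv_mul_cancel h (ENNReal.natCast_ne_top _)

instance : IsProbabilityMeasure (nu H) := ⟨nu_univ⟩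

theorem nu_map (c : H) : Measure.map (fun h : H => h * c) (nu H) = nu H := by
  ext A hA
  rw [Measure.map_apply (Measurable.of_discrete) hA, nu_apply, nu_apply,
    Set.encard_preimage_of_bijective (Group.mulRight_bijective c)]

theorem nu_singleton_pos (g : H) : nu H {g} ≠ 0 := by
  rw [nu_apply, Set.encard_singleton]
  simp

theorem ae_nu {p : H → Prop} (h : ∀ᵐ g ∂(nu H), p g) (g : H) : p g := by
  by_contra hg
  have h1 : nu H {g | ¬ p g} = 0 := h
  exact nu_singleton_pos g (measure_mono_null (Set.singleton_subset_iff.2 hg) h1)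

theorem nu_toReal (A : Set H) : (nu H A).toReal = (A.ncard : ℝ) / (Nat.card H : ℝ) := by
  have h : A.Finite := Set.toFinite A
  rw [nu_apply, ← h.cast_ncard_eq, ENNReal.toReal_mul, ENNReal.toReal_inv]
  simp only [ENNReal.toReal_natCast, ENat.toENNReal_coe]
  rw [div_eq_inv_mul]

/-- the extension -/
noncomputable def FF (φ : ℕ → H) (p : ℝ × H) : ℝ × H := (gauss p.1, p.2 * φ (dig p.1 0))

theorem measurable_dig0 : Measurable (fun y : ℝ => dig y 0) := by
  unfold dig
  exact Nat.measurable_floor.comp (measurable_id.inv)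

theorem measurable_snd' (φ : ℕ → H) :
    Measurable (Function.uncurry fun (a : ℝ) (h : H) => h * φ (dig a 0)) := by
  refine measurable_from_prod_countable_left fun h => ?_
  exact (Measurable.of_discrete (f := fun n : ℕ => h * φ n)).comp measurable_dig0

theorem ff_mp (φ : ℕ → H) :
    MeasurePreserving (FF φ) (gam.prod (nu H)) (gam.prod (nu H)) :=
  MeasurePreserving.skew_product Pool.Agent.R357.CF.mp (measurable_snd' φ)
    (Filter.Eventually.of_forall fun a => nu_map (φ (dig a 0)))

theorem ff_iter (φ : ℕ → H) (x : ℝ) (g : H) (n : ℕ) :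
    (FF φ)^[n] (x, g) = (gauss^[n] x, g * pr φ (dig x) n) := by
  induction n with
  | zero => simp [pr]
  | succ n ih =>
    rw [Function.iterate_succ_apply', ih, FF, Function.iterate_succ_apply']
    simp only [pr]
    have : dig (gauss^[n] x) 0 = dig x n := rfl
    rw [this, mul_assoc]

theorem ff_ergodic (hE : S_EXT) (φ : ℕ → H) (hφ : Subgroup.closure (φ '' {a : ℕ | 1 ≤ a}) = ⊤) :
    Ergodic (FF φ) (gam.prod (nu H)) := by
  refine ⟨ff_mp φ, ⟨?_⟩⟩
  intro s hs hsF
  have h1 := hE H φ hφ (fun h => {x | (x, h) ∈ s}) (fun h => hs.preimage measurable_prodMk_right)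
    (fun x h => by
      have : (x, h) ∈ FF φ ⁻¹' s ↔ (x, h) ∈ s := by rw [hsF]
      exact this)
  rw [Filter.eventuallyConst_set]
  rcases h1 with h1 | h1
  · right
    have h2 : (gam.prod (nu H)) s = 0 := by
      rw [Measure.measure_prod_null hs]
      have h3 : ∀ᵐ x ∂gam, ∀ h : H, (x, h) ∉ s := by
        rw [ae_all_iff]
        intro h
        exact measure_eq_zero_iff_ae_notMem.1 (h1 h)
      filter_upwards [h3] with x hx
      have : Prod.mk x ⁻¹' s = ∅ := by
        ext h
        simp only [Set.mem_preimage, Set.mem_empty_iff_false, iff_false]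
        exact hx h
      rw [this]
      simp
    exact measure_eq_zero_iff_ae_notMem.1 h2
  · left
    have h2 : (gam.prod (nu H)) sᶜ = 0 := by
      rw [Measure.measure_prod_null hs.compl]
      have h3 : ∀ᵐ x ∂gam, ∀ h : H, (x, h) ∈ s := by
        rw [ae_all_iff]
        intro h
        filter_upwards [measure_eq_zero_iff_ae_notMem.1 (h1 h)] with x hx
        by_contra hcon
        exact hx hcon
      filter_upwards [h3] with x hx
      have : Prod.mk x ⁻¹' sᶜ = ∅ := by
        ext h
        simp only [Set.mem_preimage, Set.mem_compl_iff, Set.mem_empty_iff_false, iff_false, not_not]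
        exact hx h
      rw [this]
      simp
    filter_upwards [measure_eq_zero_iff_ae_notMem.1 h2] with x hx
    by_contra hcon
    exact hx hcon

open Classical in
theorem freq (hE : S_EXT) (φ : ℕ → H) (hφ : Subgroup.closure (φ '' {a : ℕ | 1 ≤ a}) = ⊤)
    (S : Set H) : ∀ᵐ x ∂gam, ∀ g : H,
    Tendsto (fun N : ℕ => (({n : ℕ | n < N ∧ g * pr φ (dig x) n ∈ S}.ncard : ℕ) : ℝ) / (N : ℝ)) atTop
      (𝓝 ((S.ncard : ℝ) / (Nat.card H : ℝ))) := by
  have hmS : MeasurableSet ((univ : Set ℝ) ×ˢ S) := MeasurableSet.univ.prod MeasurableSet.of_discrete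
  have h1 := Pool.Agent.H165R3.birkhoff (ff_ergodic hE φ hφ)
    (Set.indicator ((univ : Set ℝ) ×ˢ S) (fun _ => (1 : ℝ))) (measurable_const.indicator hmS)
    ⟨1, fun x => by
      by_cases hx : x ∈ (univ : Set ℝ) ×ˢ S
      · rw [indicator_of_mem hx, abs_one]
      · rw [indicator_of_notMem hx, abs_zero]
        exact zero_le_one⟩
  have h2 : ∫ x, Set.indicator ((univ : Set ℝ) ×ˢ S) (fun _ => (1 : ℝ)) x ∂(gam.prod (nu H)) =
      (S.ncard : ℝ) / (Nat.card H : ℝ) := by
    rw [integral_indicator hmS, setIntegral_const, smul_eq_mul, mul_one, Measure.real,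
      Measure.prod_prod, measure_univ, one_mul, nu_toReal]
  rw [h2] at h1
  have h3 := Measure.ae_ae_of_ae_prod h1
  filter_upwards [h3] with x hx g
  have h4 := ae_nu hx g
  refine h4.congr fun N => ?_
  rw [div_eq_inv_mul]
  congr 1
  have h5 : ∀ n ∈ Finset.range N, Set.indicator ((univ : Set ℝ) ×ˢ S) (fun _ => (1 : ℝ))
      ((FF φ)^[n] (x, g)) = if g * pr φ (dig x) n ∈ S then 1 else 0 := by
    intro n _
    rw [ff_iter]
    by_cases hn : g * pr φ (dig x) n ∈ S
    · have hm : (gauss^[n] x, g * pr φ (dig x) n) ∈ (univ : Set ℝ) ×ˢ S := ⟨Set.mem_univ _, hn⟩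
      rw [if_pos hn, indicator_of_mem hm]
    · rw [if_neg hn, indicator_of_notMem (fun h => hn h.2)]
  rw [Finset.sum_congr rfl h5, Finset.sum_boole]
  have h6 : {n : ℕ | n < N ∧ g * pr φ (dig x) n ∈ S} =
      ((Finset.range N).filter fun n => g * pr φ (dig x) n ∈ S : Finset ℕ) := by
    ext n
    simp
  rw [h6, Set.ncard_coe_finset]

end

end SkwAux

theorem t_SKW (h : S_EXT) : S_SKW := by
  intro H _ _ φ hφ S
  letI : MeasurableSpace H := ⊤
  haveI : DiscreteMeasurableSpace H := ⟨fun _ => trivial⟩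
  exact SkwAux.freq h φ hφ S

end Pool.Agent.N53.CF
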