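import Pool.Agent.N53.CF.Stm

/-!
# Campaign CF (helper53): almost all numbers are continued fraction normal
-/

set_option autoImplicit false

namespace Pool.Agent.N53.CF

open MeasureTheory Filter Topology Set
open scoped ENNReal
open Pool.Agent.W811.Stu (gauss dig)
open Pool.Agent.W174.Stu (gm)
open Pool.Agent.R357.CF (gam gam_apply gam_ac ae_freq)

private lemma typ_vol {A : Set ℝ} (hA : MeasurableSet A) (h : A ⊆ Ioo (0:ℝ) 1) :
    volume A ≤ 2 * gam A := by
  have h1 : volume A ≤ 2 * gm A := by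
    unfold gm
    rw [← lintegral_const_mul' _ _ (by simp)]
    have e : A ∩ Ico 0 1 = A := inter_eq_left.2 (h.trans Ioo_subset_Ico_self)
    rw [e, ← setLIntegral_one]
    refine setLIntegral_mono' hA fun x hx => ?_
    have hx0 := (h hx).1
    have hx1 := (h hx).2
    have : (1:ℝ) ≤ 2 * (1 / (1 + x)) := by
      rw [mul_one_div, le_div_iff₀ (by positivity)]
      linarith
    calc (1 : ℝ≥0∞) = ENNReal.ofReal 1 := by simp
      _ ≤ ENNReal.ofReal (2 * (1 / (1 + x))) := ENNReal.ofReal_le_ofReal this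
      _ = 2 * ENNReal.ofReal (1 / (1 + x)) := by
        rw [ENNReal.ofReal_mul (by norm_num)]; norm_num
  have h2 : gm A ≤ gam A := by
    rw [gam_apply hA]
    have h3 : 1 ≤ (ENNReal.ofReal (Real.log 2))⁻¹ := by
      rw [ENNReal.one_le_inv]
      rw [ENNReal.ofReal_le_one]
      have := Real.log_two_lt_d9
      linarith
    calc gm A = 1 * gm A := (one_mul _).symm
      _ ≤ _ := by gcongr
  exact h1.trans (by gcongr)

private lemma typ_ac : volume.restrict (Ioo (0:ℝ) 1) ≪ gam := by
  refine Measure.AbsolutelyContinuous.mk fun s hs h0 => ?_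
  rw [Measure.restrict_apply hs]
  have h1 := typ_vol (hs.inter measurableSet_Ioo) (inter_subset_right (s := s) (t := Ioo (0:ℝ) 1))
  have h2 : gam (s ∩ Ioo (0:ℝ) 1) = 0 := measure_mono_null inter_subset_left h0
  rw [h2, mul_zero] at h1
  exact le_antisymm h1 zero_le

private lemma typ_lim (α : ℝ) (hα1 : ∀ r : ℚ, 0 ≤ (r : ℝ) → (r : ℝ) ≤ 1 → Tendsto
      (fun N : ℕ => (((Finset.range N).filter (fun n => gauss^[n] α < r)).card : ℝ) / N) atTop
      (𝓝 (Real.log (1 + r) / Real.log 2))) : ∀ t : ℝ, 0 ≤ t → t ≤ 1 → Tendsto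
    (fun N : ℕ => (((Finset.range N).filter (fun n => gauss^[n] α < t)).card : ℝ) / N) atTop
    (𝓝 (Real.log (1 + t) / Real.log 2)) := by
  intro t h0 h1
  have hcont : ∀ t : ℝ, 0 ≤ t → ContinuousAt (fun t : ℝ => Real.log (1 + t) / Real.log 2) t := by
    intro t ht
    apply ContinuousAt.div_const
    apply ContinuousAt.log (by fun_prop)
    positivity
  rw [Metric.tendsto_atTop]
  intro ε hε
  obtain ⟨δ, hδ, hδ2⟩ := Metric.continuousAt_iff.1 (hcont t h0) (ε / 2) (by positivity)
  -- upper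
  have up : ∃ N0 : ℕ, ∀ N ≥ N0,
      (((Finset.range N).filter (fun n => gauss^[n] α < t)).card : ℝ) / N <
        Real.log (1 + t) / Real.log 2 + ε := by
    rcases h1.eq_or_lt with rfl | h1
    · have h3 := hα1 1 (by norm_num) (by norm_num)
      obtain ⟨N0, hN0⟩ := Metric.tendsto_atTop.1 h3 ε hε
      refine ⟨N0, fun N hN => ?_⟩
      have h4 := hN0 N hN
      rw [Real.dist_eq, abs_lt] at h4
      have h5 := h4.2
      push_cast at h5
      linarith
    · obtain ⟨r, hr1, hr2⟩ := exists_rat_btwn (show t < min 1 (t + δ) by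
        rw [lt_min_iff]; exact ⟨h1, by linarith⟩)
      rw [lt_min_iff] at hr2
      have h3 := hα1 r (by linarith) hr2.1.le
      obtain ⟨N0, hN0⟩ := Metric.tendsto_atTop.1 h3 (ε / 2) (by positivity)
      refine ⟨N0, fun N hN => ?_⟩
      have h4 := hN0 N hN
      rw [Real.dist_eq, abs_lt] at h4
      have h5 := @hδ2 (r : ℝ) (by rw [Real.dist_eq, abs_lt]; constructor <;> linarith)
      rw [Real.dist_eq, abs_lt] at h5
      have h6 : (((Finset.range N).filter (fun n => gauss^[n] α < t)).card : ℝ) / N ≤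
          (((Finset.range N).filter (fun n => gauss^[n] α < r)).card : ℝ) / N := by
        gcongr
      linarith [h4.2, h5.2]
  have low : ∃ N0 : ℕ, ∀ N ≥ N0, Real.log (1 + t) / Real.log 2 - ε <
      (((Finset.range N).filter (fun n => gauss^[n] α < t)).card : ℝ) / N := by
    rcases h0.eq_or_lt with rfl | h0
    · refine ⟨0, fun N _ => ?_⟩
      have : (0:ℝ) ≤ (((Finset.range N).filter (fun n => gauss^[n] α < 0)).card : ℝ) / N := by
        positivity
      simp only [add_zero, Real.log_one, zero_div]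
      linarith
    · obtain ⟨r, hr1, hr2⟩ := exists_rat_btwn (show max 0 (t - δ) < t by
        rw [max_lt_iff]; exact ⟨h0, by linarith⟩)
      rw [max_lt_iff] at hr1
      have h3 := hα1 r hr1.1.le (by linarith)
      obtain ⟨N0, hN0⟩ := Metric.tendsto_atTop.1 h3 (ε / 2) (by positivity)
      refine ⟨N0, fun N hN => ?_⟩
      have h4 := hN0 N hN
      rw [Real.dist_eq, abs_lt] at h4
      have h5 := @hδ2 (r : ℝ) (by rw [Real.dist_eq, abs_lt]; constructor <;> linarith)
      rw [Real.dist_eq, abs_lt] at h5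
      have h6 : (((Finset.range N).filter (fun n => gauss^[n] α < r)).card : ℝ) / N ≤
          (((Finset.range N).filter (fun n => gauss^[n] α < t)).card : ℝ) / N := by
        gcongr
      linarith [h4.1, h5.1]
  obtain ⟨N1, hN1⟩ := up
  obtain ⟨N2, hN2⟩ := low
  refine ⟨max N1 N2, fun N hN => ?_⟩
  have a1 := hN1 N ((le_max_left _ _).trans hN)
  have a2 := hN2 N ((le_max_right _ _).trans hN)
  rw [Real.dist_eq, abs_lt]
  constructor <;> linarith

/-- **TYP.** almost all numbers are continued fraction normal -/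
theorem t_TYP : S_TYP := by
  unfold S_TYP
  have h1 : ∀ᵐ x ∂gam, ∀ r : ℚ, 0 ≤ (r : ℝ) → (r : ℝ) ≤ 1 → Tendsto
      (fun N : ℕ => (((Finset.range N).filter (fun n => gauss^[n] x < r)).card : ℝ) / N) atTop
      (𝓝 (Real.log (1 + r) / Real.log 2)) := by
    rw [ae_all_iff]
    intro r
    by_cases hr : 0 ≤ (r : ℝ) ∧ (r : ℝ) ≤ 1
    · filter_upwards [ae_freq r hr.1 hr.2] with x hx _ _ using hx
    · filter_upwards with x h0 h1
      exact absurd ⟨h0, h1⟩ hr
  have hirr : ∀ᵐ x : ℝ, Irrational x := (countable_range ((↑) : ℚ → ℝ)).ae_notMem volume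
  filter_upwards [typ_ac.ae_le h1, ae_restrict_of_ae hirr, ae_restrict_mem measurableSet_Ioo]
    with x hx a b
  refine ⟨a, b, fun t h0 h1 => ?_⟩
  refine (typ_lim x hx t h0 h1).congr fun N => ?_
  have e : {n : ℕ | n < N ∧ gauss^[n] x < t} =
      (((Finset.range N).filter (fun n => gauss^[n] x < t) : Finset ℕ) : Set ℕ) := by
    ext n
    simp
  rw [e, Set.ncard_coe_finset]

end Pool.Agent.N53.CF
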