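import Pool.Agent.N53.CF.Stm

/-!
# Windows: from almost all to all normal numbers (campaign CF, part WIN, helper951)
-/

set_option autoImplicit false
set_option linter.unusedSectionVars false

namespace Pool.Agent.N53.CF

open MeasureTheory Filter Topology Set
open Pool.Agent.W811.Stu (gauss dig)
open Pool.Agent.R357.CF (gam)

section win

variable {H : Type} [Group H] (φ : ℕ → H) (S : Set H)

lemma win_pr_add (a : ℕ → ℕ) (n j : ℕ) :
    pr φ a (n + j) = pr φ a n * pr φ (fun i => a (n + i)) j := by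
  induction j with
  | zero => simp [pr]
  | succ j ih =>
    rw [← add_assoc]
    show pr φ a (n + j) * φ (a (n + j)) = pr φ a n * (pr φ (fun i => a (n + i)) j * φ (a (n + j)))
    rw [ih, mul_assoc]

lemma win_pr_congr {a b : ℕ → ℕ} {k : ℕ} (h : ∀ i < k, a i = b i) :
    ∀ j, j ≤ k → pr φ a j = pr φ b j := by
  intro j
  induction j with
  | zero => intro _; rfl
  | succ j ih =>
    intro hj
    show pr φ a j * φ (a j) = pr φ b j * φ (b j)
    rw [ih (by omega), h j (by omega)]

open Classical in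
/-- the indicator of the visits -/
noncomputable def winI (g : H) : ℕ := if g ∈ S then 1 else 0

/-- the number of visits -/
noncomputable def winC (a : ℕ → ℕ) (g : H) (k : ℕ) : ℕ :=
  ∑ j ∈ Finset.range k, winI S (g * pr φ a j)

lemma winI_le (g : H) : winI S g ≤ 1 := by
  unfold winI
  split_ifs <;> omega

lemma win_ncard (f : ℕ → H) (N : ℕ) :
    {n : ℕ | n < N ∧ f n ∈ S}.ncard = ∑ n ∈ Finset.range N, winI S (f n) := by
  classical
  have h1 : {n : ℕ | n < N ∧ f n ∈ S} = (((Finset.range N).filter (fun n => f n ∈ S) : Finset ℕ) : Set ℕ) := by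
    ext n
    simp
  rw [h1, Set.ncard_coe_finset, Finset.card_filter]
  rfl

lemma winC_congr {a b : ℕ → ℕ} {k : ℕ} (h : ∀ i < k, a i = b i) (g : H) :
    winC φ S a g k = winC φ S b g k := by
  unfold winC
  refine Finset.sum_congr rfl fun j hj => ?_
  rw [win_pr_congr φ h j (Finset.mem_range.1 hj).le]

lemma winC_le (a : ℕ → ℕ) (g : H) (k : ℕ) : winC φ S a g k ≤ k := by
  unfold winC
  calc _ ≤ ∑ j ∈ Finset.range k, 1 := Finset.sum_le_sum fun j _ => winI_le S _
    _ = k := by simp

/-- extension of a block by zeros -/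
def winE {k : ℕ} (w : Fin k → ℕ) (n : ℕ) : ℕ := if h : n < k then w ⟨n, h⟩ else 0

lemma winE_eq {k : ℕ} (a : ℕ → ℕ) : ∀ i < k, winE (fun i : Fin k => a i) i = a i := by
  intro i hi
  unfold winE
  rw [dif_pos hi]

/-- the sum over windows -/
lemma win_sum (a : ℕ → ℕ) (k N : ℕ) :
    k * (∑ n ∈ Finset.range N, winI S (pr φ a n)) ≤
      ∑ n ∈ Finset.range N, winC φ S (fun i => a (n + i)) (pr φ a n) k + k * k := by
  have h1 : ∑ n ∈ Finset.range N, winC φ S (fun i => a (n + i)) (pr φ a n) k =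
      ∑ j ∈ Finset.range k, ∑ n ∈ Finset.range N, winI S (pr φ a (n + j)) := by
    unfold winC
    rw [Finset.sum_comm]
    refine Finset.sum_congr rfl fun j _ => Finset.sum_congr rfl fun n _ => ?_
    rw [win_pr_add]
  have h2 : ∀ j ∈ Finset.range k, ∑ n ∈ Finset.range N, winI S (pr φ a n) ≤
      ∑ n ∈ Finset.range N, winI S (pr φ a (n + j)) + k := by
    intro j hj
    have hj' := Finset.mem_range.1 hj
    have h3 : ∑ n ∈ Finset.range (j + N), winI S (pr φ a n) =
        ∑ n ∈ Finset.range j, winI S (pr φ a n) + ∑ n ∈ Finset.range N, winI S (pr φ a (j + n)) :=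
      Finset.sum_range_add _ j N
    have h4 : ∑ n ∈ Finset.range N, winI S (pr φ a n) ≤ ∑ n ∈ Finset.range (j + N), winI S (pr φ a n) :=
      Finset.sum_le_sum_of_subset (Finset.range_subset_range.2 (by omega))
    have h5 : ∑ n ∈ Finset.range j, winI S (pr φ a n) ≤ j := by
      calc _ ≤ ∑ n ∈ Finset.range j, 1 := Finset.sum_le_sum fun n _ => winI_le S _
        _ = j := by simp
    have h6 : ∑ n ∈ Finset.range N, winI S (pr φ a (j + n)) =
        ∑ n ∈ Finset.range N, winI S (pr φ a (n + j)) :=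
      Finset.sum_congr rfl fun n _ => by rw [add_comm]
    omega
  calc k * (∑ n ∈ Finset.range N, winI S (pr φ a n)) =
        ∑ j ∈ Finset.range k, ∑ n ∈ Finset.range N, winI S (pr φ a n) := by
        rw [Finset.sum_const, Finset.card_range, smul_eq_mul]
    _ ≤ ∑ j ∈ Finset.range k, (∑ n ∈ Finset.range N, winI S (pr φ a (n + j)) + k) :=
        Finset.sum_le_sum h2
    _ = _ := by
        rw [Finset.sum_add_distrib, h1, Finset.sum_const, Finset.card_range, smul_eq_mul]

end win

lemma win_dig (i : ℕ) : Measurable (fun x : ℝ => dig x i) :=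
  (Pool.Agent.W174.Stu.measurable_gauss_iterate i).inv.nat_floor

/-- **WIN.** -/
theorem t_UPP (hB : S_BLK) (hS : S_SKW) : S_UPP := by
  classical
  intro α hα H _ _ φ hφ S ε hε
  obtain ⟨d, hd⟩ : ∃ d : ℝ, d = (S.ncard : ℝ) / (Nat.card H : ℝ) := ⟨_, rfl⟩
  rw [← hd]
  -- the bad blocks
  let W : (k : ℕ) → Set (Fin k → ℕ) := fun k =>
    {w | ∃ g : H, (d + ε / 3) * (k : ℝ) < (winC φ S (winE w) g k : ℝ)}
  have hmem : ∀ (k : ℕ) (a : ℕ → ℕ), (fun i : Fin k => a i) ∈ W k ↔
      ∃ g : H, (d + ε / 3) * (k : ℝ) < (winC φ S a g k : ℝ) := by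
    intro k a
    show (∃ g : H, (d + ε / 3) * (k : ℝ) < (winC φ S (winE (fun i : Fin k => a i)) g k : ℝ)) ↔ _
    refine exists_congr fun g => ?_
    rw [winC_congr φ S (winE_eq a) g]
  have hmeas : ∀ k : ℕ, MeasurableSet {x : ℝ | (fun i : Fin k => dig x i) ∈ W k} := by
    intro k
    have h1 : Measurable (fun x : ℝ => (fun i : Fin k => dig x i)) :=
      measurable_pi_lambda _ fun i => win_dig i
    exact h1 (MeasurableSet.of_discrete (s := W k))
  have hae : ∀ᵐ x ∂gam, ∀ᶠ k : ℕ in atTop,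
      x ∈ {x : ℝ | (fun i : Fin k => dig x i) ∈ W k} ↔ x ∈ (∅ : Set ℝ) := by
    filter_upwards [hS H φ hφ S] with x hx
    have h1 : ∀ᶠ k : ℕ in atTop, ∀ g : H,
        (({n : ℕ | n < k ∧ g * pr φ (dig x) n ∈ S}.ncard : ℕ) : ℝ) / (k : ℝ) < d + ε / 3 := by
      rw [eventually_all]
      intro g
      have h2 := hx g
      rw [← hd] at h2
      exact h2.eventually (gt_mem_nhds (by linarith))
    filter_upwards [h1, eventually_gt_atTop 0] with k h2 h3
    have hk : (0 : ℝ) < k := by exact_mod_cast h3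
    rw [Set.mem_empty_iff_false, iff_false]
    intro h4
    obtain ⟨g, hg⟩ := (hmem k (dig x)).1 h4
    have h5 := h2 g
    rw [win_ncard S (fun n => g * pr φ (dig x) n), div_lt_iff₀ hk] at h5
    unfold winC at hg
    linarith
  have hlim := tendsto_measure_of_ae_tendsto_indicator_of_isFiniteMeasure atTop (μ := gam)
    MeasurableSet.empty hmeas hae
  rw [measure_empty] at hlim
  have hlim2 := (ENNReal.tendsto_toReal ENNReal.zero_ne_top).comp hlim
  rw [ENNReal.toReal_zero] at hlim2
  obtain ⟨k, hk1, hk2⟩ := ((hlim2.eventually (gt_mem_nhds (show (0:ℝ) < ε / 6 by positivity))).and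
    (eventually_gt_atTop 0)).exists
  have hk : (0 : ℝ) < k := by exact_mod_cast hk2
  have hk1' : (gam {x : ℝ | (fun i : Fin k => dig x i) ∈ W k}).toReal < ε / 6 := hk1
  have hblk := hB α hα k (W k) (ε / 6) (by positivity)
  have hN : ∀ᶠ N : ℕ in atTop, 3 * (k : ℝ) / ε ≤ N :=
    tendsto_natCast_atTop_atTop.eventually_ge_atTop _
  filter_upwards [hblk, hN] with N h1 h2
  have hN0 : (0 : ℝ) ≤ N := Nat.cast_nonneg N
  rw [win_ncard S (fun n => pr φ (dig α) n)]
  -- the bad windows
  have hbad : (((Finset.range N).filter (fun n => (fun i : Fin k => dig α (n + i)) ∈ W k)).card : ℝ) ≤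
      ε / 3 * N := by
    have e1 : {n : ℕ | n < N ∧ (fun i : Fin k => dig α (n + i)) ∈ W k} =
        (((Finset.range N).filter (fun n => (fun i : Fin k => dig α (n + i)) ∈ W k) : Finset ℕ) : Set ℕ) := by
      ext n
      simp
    rw [e1, Set.ncard_coe_finset] at h1
    refine h1.trans (mul_le_mul_of_nonneg_right (by linarith) hN0)
  have hterm : ∀ n ∈ Finset.range N, (winC φ S (fun i => dig α (n + i)) (pr φ (dig α) n) k : ℝ) ≤
      (d + ε / 3) * k + k * (if (fun i : Fin k => dig α (n + i)) ∈ W k then 1 else 0) := by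
    intro n _
    by_cases h : (fun i : Fin k => dig α (n + i)) ∈ W k
    · rw [if_pos h, mul_one]
      have h3 : (winC φ S (fun i => dig α (n + i)) (pr φ (dig α) n) k : ℝ) ≤ k := by
        exact_mod_cast winC_le φ S _ _ k
      have hd0 : 0 ≤ d := by rw [hd]; positivity
      have : 0 ≤ (d + ε / 3) * k := by positivity
      linarith
    · rw [if_neg h, mul_zero, add_zero]
      by_contra hcon
      push Not at hcon
      exact h ((hmem k (fun i => dig α (n + i))).2 ⟨_, hcon⟩)
  have hsum : ((∑ n ∈ Finset.range N, winC φ S (fun i => dig α (n + i)) (pr φ (dig α) n) k : ℕ) : ℝ) ≤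
      (d + ε / 3) * k * N + k * (ε / 3 * N) := by
    push_cast
    refine (Finset.sum_le_sum hterm).trans ?_
    rw [Finset.sum_add_distrib, Finset.sum_const, Finset.card_range, nsmul_eq_mul, ← Finset.mul_sum]
    have e2 : ∑ n ∈ Finset.range N, (if (fun i : Fin k => dig α (n + i)) ∈ W k then (1 : ℝ) else 0) =
        (((Finset.range N).filter (fun n => (fun i : Fin k => dig α (n + i)) ∈ W k)).card : ℝ) := by
      rw [Finset.card_filter, Nat.cast_sum]
      refine Finset.sum_congr rfl fun n _ => ?_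
      split_ifs <;> simp
    rw [e2]
    have := mul_le_mul_of_nonneg_left hbad hk.le
    linarith
  have hw := win_sum φ S (dig α) k N
  have hw' : (k : ℝ) * ((∑ n ∈ Finset.range N, winI S (pr φ (dig α) n) : ℕ) : ℝ) ≤
      ((∑ n ∈ Finset.range N, winC φ S (fun i => dig α (n + i)) (pr φ (dig α) n) k : ℕ) : ℝ) + k * k := by
    exact_mod_cast hw
  rw [div_le_iff₀ hε] at h2
  have h3 : (k : ℝ) * ((∑ n ∈ Finset.range N, winI S (pr φ (dig α) n) : ℕ) : ℝ) ≤
      k * ((d + ε) * N) := by
    have h4 : (k : ℝ) * k ≤ k * (N * ε / 3) := mul_le_mul_of_nonneg_left (by linarith) hk.le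
    nlinarith
  exact le_of_mul_le_mul_left h3 hk

end Pool.Agent.N53.CF
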