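import Pool.Agent.N53.CF.Blk
import Pool.Agent.N53.CF.Ext
import Pool.Agent.N53.CF.Fin
import Pool.Agent.N53.CF.Grp
import Pool.Agent.N53.CF.Skw
import Pool.Agent.N53.CF.Typ
import Pool.Agent.N53.CF.Win

/-!
# Convergents of continued fraction normal numbers (campaign CF): main theorem

The convergents `p_n / q_n` of a continued fraction normal number avoid, up to density zero, every
negligible (`ProNull`) set of pairs of integers.  Leaves: helper279 (typ), helper614 (blocks),
helper588 (ergodicity of the extensions), helper51 (frequencies almost everywhere), helper951 (from
almost all to all), helper645 (matrices modulo `q`).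
-/

set_option autoImplicit false

namespace Pool.Agent.N53.CF

/-- **Convergents of continued fraction normal numbers** avoid negligible sets of pairs, up to density
zero. -/
theorem main : S_CF := t_FIN (t_UPP t_BLK (t_SKW t_EXT)) t_GRP

end Pool.Agent.N53.CF
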