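import Pool.Agent.N53.CF.Stm
import Pool.Agent.N456.CN.Typ

/-!
# The blocks of partial quotients of a continued fraction normal number (`S_BLK`) (helper614)
-/

set_option autoImplicit false

namespace Pool.Agent.N53.CF

open MeasureTheory Filter Topology Set
open Pool.Agent.W811.Stu (gauss dig)
open Pool.Agent.W174.Stu (iter_mem)
open Pool.Agent.R357.CF (gam gam_Iio)
open Pool.Agent.N456.CN (ae_irr measurable_dig dig_iter)

/-- The number of visits to a set. -/
private noncomputable def blk_cnt (α : ℝ) (A : Set ℝ) (N : ℕ) : ℕ :=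
  {n : ℕ | n < N ∧ gauss^[n] α ∈ A}.ncard

private lemma blk_fin (α : ℝ) (A : Set ℝ) (N : ℕ) : {n : ℕ | n < N ∧ gauss^[n] α ∈ A}.Finite :=
  (Set.finite_Iio N).subset fun _ h => h.1

private lemma blk_union (α : ℝ) {A B : Set ℝ} (h : Disjoint A B) (N : ℕ) :
    blk_cnt α (A ∪ B) N = blk_cnt α A N + blk_cnt α B N := by
  unfold blk_cnt
  rw [← Set.ncard_union_eq ?_ (blk_fin α A N) (blk_fin α B N)]
  · congr 1
    ext n
    simp only [Set.mem_ofPred_eq, Set.mem_union]
    tauto
  · rw [Set.disjoint_left]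
    intro n h1 h2
    exact Set.disjoint_left.1 h h1.2 h2.2

private lemma blk_le (α : ℝ) (A : Set ℝ) (N : ℕ) : blk_cnt α A N ≤ N := by
  unfold blk_cnt
  calc _ ≤ (Set.Iio N).ncard := Set.ncard_le_ncard (fun _ h => h.1) (Set.finite_Iio N)
    _ = N := by rw [← Finset.coe_Iio, Set.ncard_coe_finset, Nat.card_Iio]

private lemma blk_congr {α : ℝ} (hα : Irrational α) (h01 : α ∈ Ioo (0 : ℝ) 1) {A B : Set ℝ}
    (h : ∀ x : ℝ, Irrational x → x ∈ Ioo (0 : ℝ) 1 → (x ∈ A ↔ x ∈ B)) (N : ℕ) :
    blk_cnt α A N = blk_cnt α B N := by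
  unfold blk_cnt
  congr 1
  ext n
  have h1 := iter_mem hα h01 n
  simp only [Set.mem_ofPred_eq, h _ h1.1 h1.2]

private lemma blk_gam {A B : Set ℝ}
    (h : ∀ x : ℝ, Irrational x → x ∈ Ioo (0 : ℝ) 1 → (x ∈ A ↔ x ∈ B)) : gam A = gam B := by
  apply measure_congr
  filter_upwards [ae_irr] with x hx
  exact propext (h x hx.1 hx.2)

/-- The set has the right frequency. -/
private def blk_ok (α : ℝ) (A : Set ℝ) : Prop :=
  Tendsto (fun N : ℕ => (blk_cnt α A N : ℝ) / N) atTop (𝓝 (gam A).toReal)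

private lemma blk_ok_congr {α : ℝ} (hα : Irrational α) (h01 : α ∈ Ioo (0 : ℝ) 1) {A B : Set ℝ}
    (h : ∀ x : ℝ, Irrational x → x ∈ Ioo (0 : ℝ) 1 → (x ∈ A ↔ x ∈ B)) (hB : blk_ok α B) :
    blk_ok α A := by
  unfold blk_ok at hB ⊢
  rw [blk_gam h]
  refine hB.congr fun N => ?_
  rw [blk_congr hα h01 h]

private lemma blk_Iio {α : ℝ} (h : CFNormal α) {t : ℝ} (h0 : 0 ≤ t) (h1 : t ≤ 1) :
    blk_ok α (Iio t) := by
  unfold blk_ok
  rw [gam_Iio h0 h1, ENNReal.toReal_ofReal]
  · exact h.2.2 t h0 h1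
  · exact div_nonneg (Real.log_nonneg (by linarith)) (Real.log_nonneg (by norm_num))

private lemma blk_Ico {α : ℝ} (h : CFNormal α) {s t : ℝ} (h0 : 0 ≤ s) (hst : s ≤ t) (h1 : t ≤ 1) :
    blk_ok α (Ico s t) := by
  have e1 := blk_Iio h h0 (hst.trans h1)
  have e2 := blk_Iio h (h0.trans hst) h1
  unfold blk_ok at e1 e2 ⊢
  have hd : Disjoint (Iio s) (Ico s t) := by
    rw [Set.disjoint_left]
    intro x hx hx'
    exact absurd hx'.1 (not_le.2 hx)
  have hu : Iio s ∪ Ico s t = Iio t := Set.Iio_union_Ico_eq_Iio hst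
  have hm : (gam (Ico s t)).toReal = (gam (Iio t)).toReal - (gam (Iio s)).toReal := by
    rw [← hu, measure_union hd measurableSet_Ico,
      ENNReal.toReal_add (measure_ne_top _ _) (measure_ne_top _ _)]
    ring
  rw [hm]
  refine (e2.sub e1).congr fun N => ?_
  rw [← hu, blk_union α hd]
  push_cast
  ring

/-- The cylinders are intervals with rational end points, up to rational points. -/
private lemma blk_cyl : ∀ (k : ℕ) (c : Fin k → ℕ), ∃ s t : ℚ, 0 ≤ s ∧ s ≤ t ∧ t ≤ 1 ∧
    ∀ x : ℝ, Irrational x → x ∈ Ioo (0 : ℝ) 1 →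
      ((fun i : Fin k => dig x i) = c ↔ (s : ℝ) < x ∧ x < t) := by
  intro k
  induction k with
  | zero =>
    intro c
    refine ⟨0, 1, le_rfl, zero_le_one, le_rfl, fun x _ h01 => ?_⟩
    have : (fun i : Fin 0 => dig x i) = c := Subsingleton.elim _ _
    simp only [this, true_iff]
    push_cast
    exact h01
  | succ k ih =>
    intro c
    obtain ⟨s, t, h0, hst, h1, h⟩ := ih fun i => c i.succ
    have hsplit : ∀ x : ℝ, ((fun i : Fin (k + 1) => dig x i) = c ↔
        dig x 0 = c 0 ∧ (fun i : Fin k => dig (gauss x) i) = fun i => c i.succ) := by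
      intro x
      have hd : ∀ i : ℕ, dig (gauss x) i = dig x (i + 1) := by
        intro i
        have := dig_iter x 1 i
        rw [Function.iterate_one] at this
        rw [this, add_comm]
      constructor
      · intro hc
        refine ⟨congrFun hc 0, ?_⟩
        funext i
        rw [hd]
        exact congrFun hc i.succ
      · rintro ⟨hc0, hc⟩
        funext i
        refine Fin.cases hc0 (fun i => ?_) i
        have := congrFun hc i
        rw [hd] at this
        exact this
    rcases Nat.eq_zero_or_pos (c 0) with hc0 | hc0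
    · refine ⟨0, 0, le_rfl, le_rfl, zero_le_one, fun x hx h01 => ?_⟩
      rw [hsplit]
      constructor
      · rintro ⟨h2, -⟩
        exfalso
        rw [hc0] at h2
        unfold dig at h2
        rw [Function.iterate_zero, id, Nat.floor_eq_zero] at h2
        have h3 := (one_lt_inv₀ h01.1).2 h01.2
        linarith
      · rintro ⟨h2, h3⟩
        exfalso
        push_cast at h2 h3
        linarith
    · have ha : (1 : ℝ) ≤ (c 0 : ℕ) := by exact_mod_cast hc0
      have haq : (1 : ℚ) ≤ (c 0 : ℕ) := by exact_mod_cast hc0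
      refine ⟨((c 0 : ℚ) + t)⁻¹, ((c 0 : ℚ) + s)⁻¹, inv_nonneg.2 (by linarith), ?_, ?_,
        fun x hx h01 => ?_⟩
      · apply inv_anti₀ (by linarith)
        linarith
      · exact inv_le_one_of_one_le₀ (by linarith)
      · rw [hsplit]
        have hg := iter_mem hx h01 1
        rw [Function.iterate_one] at hg
        rw [h (gauss x) hg.1 hg.2]
        have h0r : (0 : ℝ) ≤ s := by exact_mod_cast h0
        have h1r : (t : ℝ) ≤ 1 := by exact_mod_cast h1
        have hstr : (s : ℝ) ≤ t := by exact_mod_cast hst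
        have hx0 := h01.1
        have hxi : (0 : ℝ) < x⁻¹ := inv_pos.2 hx0
        push_cast
        have hgx : gauss x = Int.fract x⁻¹ := rfl
        have hdx : dig x 0 = ⌊x⁻¹⌋₊ := rfl
        have hfl : (⌊x⁻¹⌋ : ℤ) = (⌊x⁻¹⌋₊ : ℕ) := (Int.natCast_floor_eq_floor hxi.le).symm
        have hgx2 : gauss x = x⁻¹ - (⌊x⁻¹⌋₊ : ℕ) := by
          rw [hgx, Int.fract, hfl, Int.cast_natCast]
        rw [hdx, inv_lt_comm₀ (by linarith) hx0, lt_inv_comm₀ hx0 (by linarith), hgx2]
        constructor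
        · rintro ⟨h2, h3, h4⟩
          rw [h2] at h3 h4
          constructor <;> linarith
        · rintro ⟨h2, h3⟩
          have h4 : ⌊x⁻¹⌋₊ = c 0 := by
            rw [Nat.floor_eq_iff hxi.le]
            constructor <;> linarith
          rw [h4]
          refine ⟨rfl, ?_, ?_⟩ <;> linarith

private lemma blk_meas (k : ℕ) : Measurable fun x : ℝ => fun i : Fin k => dig x i :=
  measurable_pi_lambda _ fun i => measurable_dig i

private lemma blk_measW (k : ℕ) (W : Set (Fin k → ℕ)) :
    MeasurableSet {x : ℝ | (fun i : Fin k => dig x i) ∈ W} :=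
  blk_meas k (Set.to_countable W).measurableSet

private lemma blk_single {α : ℝ} (h : CFNormal α) {k : ℕ} (c : Fin k → ℕ) :
    blk_ok α {x : ℝ | (fun i : Fin k => dig x i) = c} := by
  obtain ⟨s, t, h0, hst, h1, hc⟩ := blk_cyl k c
  have h0r : (0 : ℝ) ≤ s := by exact_mod_cast h0
  have h1r : (t : ℝ) ≤ 1 := by exact_mod_cast h1
  have hstr : (s : ℝ) ≤ t := by exact_mod_cast hst
  refine blk_ok_congr h.1 h.2.1 (fun x hx h01 => ?_) (blk_Ico h h0r hstr h1r)
  show (fun i : Fin k => dig x i) = c ↔ (s : ℝ) ≤ x ∧ x < t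
  rw [hc x hx h01]
  constructor
  · rintro ⟨a, b⟩
    exact ⟨a.le, b⟩
  · rintro ⟨a, b⟩
    exact ⟨lt_of_le_of_ne a (fun e => hx ⟨s, e⟩), b⟩

private lemma blk_finset {α : ℝ} (h : CFNormal α) {k : ℕ} (F : Finset (Fin k → ℕ)) :
    blk_ok α {x : ℝ | (fun i : Fin k => dig x i) ∈ (F : Set (Fin k → ℕ))} := by
  classical
  induction F using Finset.induction_on with
  | empty =>
    unfold blk_ok blk_cnt
    simp
  | insert c F hc ih =>
    have h1 := blk_single h c
    have hd : Disjoint {x : ℝ | (fun i : Fin k => dig x i) = c}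
        {x : ℝ | (fun i : Fin k => dig x i) ∈ (F : Set (Fin k → ℕ))} := by
      rw [Set.disjoint_left]
      intro x hx hx'
      apply hc
      rw [Set.mem_ofPred_eq] at hx hx'
      rw [hx] at hx'
      exact hx'
    have he : {x : ℝ | (fun i : Fin k => dig x i) ∈ ((insert c F : Finset _) : Set (Fin k → ℕ))} =
        {x : ℝ | (fun i : Fin k => dig x i) = c} ∪
        {x : ℝ | (fun i : Fin k => dig x i) ∈ (F : Set (Fin k → ℕ))} := by
      ext x
      simp
    rw [he]
    unfold blk_ok at h1 ih ⊢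
    rw [measure_union hd (blk_measW k _), ENNReal.toReal_add (measure_ne_top _ _) (measure_ne_top _ _)]
    refine (h1.add ih).congr fun N => ?_
    rw [blk_union α hd]
    push_cast
    ring

/-- **BLK.** the blocks of partial quotients of a normal number -/
theorem t_BLK : S_BLK := by
  classical
  intro α h k W ε hε
  set A : Set ℝ := {x : ℝ | (fun i : Fin k => dig x i) ∈ W} with hA
  set U : Set ℝ := {x : ℝ | (fun i : Fin k => dig x i) ∈ Wᶜ} with hU
  have hUA : U = Aᶜ := rfl
  -- finite approximation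
  obtain ⟨F, hFW, hF⟩ : ∃ F : Finset (Fin k → ℕ), (F : Set (Fin k → ℕ)) ⊆ Wᶜ ∧
      (gam U).toReal - ε / 2 <
        (gam {x : ℝ | (fun i : Fin k => dig x i) ∈ (F : Set (Fin k → ℕ))}).toReal := by
    let G : ℕ → Finset (Fin k → ℕ) := fun m =>
      (Fintype.piFinset fun _ : Fin k => Finset.range m).filter fun c => c ∉ W
    have hG : ∀ m c, c ∈ G m ↔ (∀ i, c i < m) ∧ c ∉ W := by
      intro m c
      simp [G, Fintype.mem_piFinset]
    have hmono : Monotone fun m => {x : ℝ | (fun i : Fin k => dig x i) ∈ (G m : Set (Fin k → ℕ))} := by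
      intro m m' hmm x hx
      rw [Set.mem_ofPred_eq, Finset.mem_coe, hG] at hx ⊢
      exact ⟨fun i => (hx.1 i).trans_le hmm, hx.2⟩
    have hUn : ⋃ m, {x : ℝ | (fun i : Fin k => dig x i) ∈ (G m : Set (Fin k → ℕ))} = U := by
      ext x
      rw [Set.mem_iUnion]
      constructor
      · rintro ⟨m, hm⟩
        rw [Set.mem_ofPred_eq, Finset.mem_coe, hG] at hm
        exact hm.2
      · intro hx
        refine ⟨(Finset.univ.sup fun i : Fin k => dig x i) + 1, ?_⟩
        rw [Set.mem_ofPred_eq, Finset.mem_coe, hG]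
        exact ⟨fun i => Nat.lt_succ_of_le
          (Finset.le_sup (f := fun i : Fin k => dig x i) (Finset.mem_univ i)), hx⟩
    have hlim := tendsto_measure_iUnion_atTop (μ := gam) hmono
    rw [hUn] at hlim
    have hlim2 := (ENNReal.tendsto_toReal (measure_ne_top gam U)).comp hlim
    obtain ⟨m, hm⟩ := ((tendsto_order.1 hlim2).1 ((gam U).toReal - ε / 2) (by linarith)).exists
    exact ⟨G m, fun c hc => ((hG m c).1 hc).2, hm⟩
  have h1 := blk_finset h F
  set B : Set ℝ := {x : ℝ | (fun i : Fin k => dig x i) ∈ (F : Set (Fin k → ℕ))} with hB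
  have hdAB : Disjoint A B := by
    rw [Set.disjoint_left]
    intro x hx hx'
    exact hFW hx' hx
  have hsum : (gam U).toReal = 1 - (gam A).toReal := by
    rw [hUA, prob_compl_eq_one_sub (blk_measW k W), ENNReal.toReal_sub_of_le prob_le_one ENNReal.one_ne_top,
      ENNReal.toReal_one]
  unfold blk_ok at h1
  filter_upwards [(tendsto_order.1 h1).1 ((gam B).toReal - ε / 2) (by linarith),
    eventually_gt_atTop 0] with N hN hN0
  have hN0r : (0 : ℝ) < N := by exact_mod_cast hN0
  rw [lt_div_iff₀ hN0r] at hN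
  have h2 : blk_cnt α (A ∪ B) N ≤ N := blk_le α _ N
  rw [blk_union α hdAB] at h2
  have h3 : (blk_cnt α A N : ℝ) + blk_cnt α B N ≤ N := by exact_mod_cast h2
  have h4 : {n : ℕ | n < N ∧ (fun i : Fin k => dig α (n + i)) ∈ W}.ncard = blk_cnt α A N := by
    unfold blk_cnt
    congr 1
    ext n
    simp only [hA, Set.mem_ofPred_eq, dig_iter]
  rw [h4]
  nlinarith

end Pool.Agent.N53.CF
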