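import Pool.Agent.R357.CF.Norm
import Pool.Agent.R357.CF.Seq
import Pool.Agent.N24.RW.Stm

/-!
# Convergents of continued fraction normal numbers (campaign CF, helper53): definitions, statements

`gauss x` is the fractional part of `1 / x`, `dig x n` the integral part of `1 / gauss^[n] x`, so that
`x = [0; dig x 0, dig x 1, ...]`, and `gam` is the Gauss measure `dx / ((1 + x) log 2)` on `[0, 1)`.
-/

set_option autoImplicit false

namespace Pool.Agent.N53.CF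

open MeasureTheory Filter Topology Set
open Pool.Agent.N24.RW (ProNull)
open Pool.Agent.W811.Stu (gauss dig)
open Pool.Agent.R357.CF (gam)

/-- the numerators and denominators of two consecutive convergents: `((p, q), (p', q'))` where `p / q`
and `p' / q'` are the convergents number `n - 1` and `n` of `[0; a 0, a 1, ...]` -/
def cv (a : ℕ → ℕ) : ℕ → (ℤ × ℤ) × (ℤ × ℤ)
  | 0 => ((1, 0), (0, 1))
  | n + 1 => ((cv a n).2,
      ((a n : ℤ) * (cv a n).2.1 + (cv a n).1.1, (a n : ℤ) * (cv a n).2.2 + (cv a n).1.2))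

/-- numerator and denominator of the `n`-th convergent `[0; a 0, ..., a (n - 1)]` -/
def cvg (a : ℕ → ℕ) (n : ℕ) : Fin 2 → ℤ := ![(cv a n).2.1, (cv a n).2.2]

/-- The irrational number `α` in `(0, 1)` is continued fraction normal: its orbit under the Gauss map
is distributed according to the Gauss measure. -/
def CFNormal (α : ℝ) : Prop :=
  Irrational α ∧ α ∈ Ioo (0 : ℝ) 1 ∧ ∀ t : ℝ, 0 ≤ t → t ≤ 1 →
    Tendsto (fun N : ℕ => (({n : ℕ | n < N ∧ gauss^[n] α < t}.ncard : ℕ) : ℝ) / (N : ℝ)) atTop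
      (𝓝 (Real.log (1 + t) / Real.log 2))

/-- the product of the letters `φ (a 0) * ... * φ (a (n - 1))` -/
def pr {H : Type} [Group H] (φ : ℕ → H) (a : ℕ → ℕ) : ℕ → H
  | 0 => 1
  | n + 1 => pr φ a n * φ (a n)

/-- **TYP.** almost all numbers are continued fraction normal -/
def S_TYP : Prop := ∀ᵐ α ∂(volume.restrict (Ioo (0 : ℝ) 1)), CFNormal α

/-- **BLK.** the blocks of partial quotients of a normal number -/
def S_BLK : Prop := ∀ α : ℝ, CFNormal α → ∀ (k : ℕ) (W : Set (Fin k → ℕ)) (ε : ℝ), 0 < ε →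
  ∀ᶠ N : ℕ in atTop,
    (({n : ℕ | n < N ∧ (fun i : Fin k => dig α (n + i)) ∈ W}.ncard : ℕ) : ℝ) ≤
      ((gam {x : ℝ | (fun i : Fin k => dig x i) ∈ W}).toReal + ε) * (N : ℝ)

/-- **EXT.** extensions of the Gauss map by finite groups are ergodic -/
def S_EXT : Prop := ∀ (H : Type) [Group H] [Finite H] (φ : ℕ → H),
  Subgroup.closure (φ '' {a : ℕ | 1 ≤ a}) = ⊤ →
  ∀ E : H → Set ℝ, (∀ h, MeasurableSet (E h)) →
    (∀ (x : ℝ) (h : H), gauss x ∈ E (h * φ (dig x 0)) ↔ x ∈ E h) →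
    (∀ h, gam (E h) = 0) ∨ ∀ h, gam (E h)ᶜ = 0

/-- **SKW.** frequencies in the extension, almost everywhere -/
def S_SKW : Prop := ∀ (H : Type) [Group H] [Finite H] (φ : ℕ → H),
  Subgroup.closure (φ '' {a : ℕ | 1 ≤ a}) = ⊤ → ∀ S : Set H, ∀ᵐ x ∂gam, ∀ g : H,
    Tendsto (fun N : ℕ => (({n : ℕ | n < N ∧ g * pr φ (dig x) n ∈ S}.ncard : ℕ) : ℝ) / (N : ℝ)) atTop
      (𝓝 ((S.ncard : ℝ) / (Nat.card H : ℝ)))

/-- **UPP.** upper bound of the frequencies in the extension, for all normal numbers -/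
def S_UPP : Prop := ∀ α : ℝ, CFNormal α → ∀ (H : Type) [Group H] [Finite H] (φ : ℕ → H),
  Subgroup.closure (φ '' {a : ℕ | 1 ≤ a}) = ⊤ → ∀ (S : Set H) (ε : ℝ), 0 < ε → ∀ᶠ N : ℕ in atTop,
    (({n : ℕ | n < N ∧ pr φ (dig α) n ∈ S}.ncard : ℕ) : ℝ) ≤
      ((S.ncard : ℝ) / (Nat.card H : ℝ) + ε) * (N : ℝ)

/-- **GRP.** the convergents modulo `q` -/
def S_GRP : Prop := ∀ q : ℕ, 0 < q → Odd q → ∀ R : Set (Fin 2 → ZMod q),
  ∃ (H : Type) (_ : Group H) (_ : Finite H) (φ : ℕ → H) (S : Set H),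
    Subgroup.closure (φ '' {a : ℕ | 1 ≤ a}) = ⊤ ∧
    (S.ncard : ℝ) / (Nat.card H : ℝ) ≤ 2 * (R.ncard : ℝ) / (q : ℝ) ^ 2 ∧
    ∀ (a : ℕ → ℕ) (n : ℕ), (fun i => (cvg a n i : ZMod q)) ∈ R ↔ pr φ a n ∈ S

/-- **main theorem** -/
def S_CF : Prop := ∀ B : Set (Fin 2 → ℤ), ProNull B → ∀ α : ℝ, CFNormal α →
  Tendsto (fun N : ℕ => (({n : ℕ | n < N ∧ cvg (dig α) n ∈ B}.ncard : ℕ) : ℝ) / (N : ℝ)) atTop (𝓝 0)

end Pool.Agent.N53.CF
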